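import Pool.Agent.helper99.WN.SpecA

/-!
# Row wn:CM (MP_5c1f29_al): restriction to a component
-/

set_option autoImplicit false

open Classical

namespace Pool.Agent.WN

theorem CM_back {V : Type} {k : ℕ} (E : Gr V k) (v0 : V)
    (E' : Gr {v : V // ∃ g, PL (lf E) v0 v g} k)
    (hE' : ∀ e : {v : V // ∃ g, PL (lf E) v0 v g} × Fin k × {v : V // ∃ g, PL (lf E) v0 v g},
      (e.1.1, e.2.1, e.2.2.1) ∈ E → e ∈ E') {a b : V} {g : Fr k} (h : PL (lf E) a b g) (ha : a = v0)
    (ha' : ∃ g, PL (lf E) v0 a g) (hb : ∃ g, PL (lf E) v0 b g) :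
    PL (lf E') ⟨a, ha'⟩ ⟨b, hb⟩ g := by
  subst ha
  induction h with
  | nil => exact PL.nil _
  | @fwd b c g x h he ih =>
    refine PL.fwd (ih ⟨g, h⟩) ?_
    obtain ⟨e, he1, he2⟩ := he
    have h1 : b = e.1 := congrArg Prod.fst he2
    have h2 : x = FreeGroup.of e.2.1 := congrArg (fun p => p.2.1) he2
    have h3 : c = e.2.2 := congrArg (fun p => p.2.2) he2
    refine ⟨(⟨b, ⟨g, h⟩⟩, e.2.1, ⟨c, hb⟩), ?_, ?_⟩
    · apply hE'
      simp only
      rw [h1, h3]
      exact he1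
    · rw [h2]
  | @bwd b c g x h he ih =>
    refine PL.bwd (ih ⟨g, h⟩) ?_
    obtain ⟨e, he1, he2⟩ := he
    have h1 : c = e.1 := congrArg Prod.fst he2
    have h2 : x = FreeGroup.of e.2.1 := congrArg (fun p => p.2.1) he2
    have h3 : b = e.2.2 := congrArg (fun p => p.2.2) he2
    refine ⟨(⟨c, hb⟩, e.2.1, ⟨b, ⟨g, h⟩⟩), ?_, ?_⟩
    · apply hE'
      simp only
      rw [h1, h3]
      exact he1
    · rw [h2]

theorem CM : CM_stmt := by
  intro V _ k E v0 hE
  have hex : ∃ v : V, ¬ ∃ g, PL (lf E) v0 v g := by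
    by_contra hcon
    push Not at hcon
    apply hE
    intro a b
    obtain ⟨g, hg⟩ := hcon a
    obtain ⟨h, hh⟩ := hcon b
    exact ⟨g⁻¹ * h, hg.symm.trans hh⟩
  obtain ⟨v1, hv1⟩ := hex
  refine ⟨{v : V // ∃ g, PL (lf E) v0 v g}, inferInstance,
    Finset.univ.filter (fun e => (e.1.1, e.2.1, e.2.2.1) ∈ E), ⟨v0, 1, PL.nil v0⟩, ?_, ?_⟩
  · have h1 : Fintype.card {v : V // ∃ g, PL (lf E) v0 v g} < Fintype.card V :=
      Fintype.card_subtype_lt hv1
    have h2 : (Finset.univ.filter (fun e : {v : V // ∃ g, PL (lf E) v0 v g} × Fin k ×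
        {v : V // ∃ g, PL (lf E) v0 v g} => (e.1.1, e.2.1, e.2.2.1) ∈ E)).card ≤ E.card := by
      apply Finset.card_le_card_of_injOn (fun e => (e.1.1, e.2.1, e.2.2.1))
      · intro e he
        exact (Finset.mem_filter.mp he).2
      · intro e _ e' _ h
        simp only [Prod.mk.injEq] at h
        exact Prod.ext (Subtype.ext h.1) (Prod.ext h.2.1 (Subtype.ext h.2.2))
    exact Nat.add_lt_add_of_lt_of_le h1 h2
  · intro h
    constructor
    · intro h1
      refine PL.map (S' := lf E) (fun v => v.1) ?_ h1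
      rintro a x b ⟨e, he1, he2⟩
      have h2 : a = e.1 := congrArg Prod.fst he2
      have h3 : x = FreeGroup.of e.2.1 := congrArg (fun p => p.2.1) he2
      have h4 : b = e.2.2 := congrArg (fun p => p.2.2) he2
      rw [h2, h3, h4]
      exact PL.edge (mem_lf (Finset.mem_filter.mp he1).2)
    · intro h1
      exact CM_back E v0 _ (fun e he => Finset.mem_filter.mpr ⟨Finset.mem_univ _, he⟩) h1 rfl _ _

end Pool.Agent.WN
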